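import Pool.Agent.W_MP_1d4143_al.SpaceMain

set_option autoImplicit false

open Pool.Agent.W_MP_1d4143_al

/-- The word problem of every asynchronously automatic group is in PSPACE; there is an
asynchronously automatic group whose word problem is PSPACE-complete; and the word problem of every
asynchronously automatic group is solvable in polynomial time if and only if `P = PSPACE`. -/
theorem Pool.Agent.Results.MP_1d4143_al.WordProblemPSPACE.result :
    (∀ (G A : Type) [Group G] [Finite A] (π : A → G), Nonempty (AsyncStructure π) →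
      InPSPACE (fun w : List A => w) (wordProblem π)) ∧
    (∃ (G A : Type) (_ : Group G) (_ : Finite A) (π : A → G), Nonempty (AsyncStructure π) ∧
      PSPACEComplete (wordProblem π)) ∧
    ((∀ (G A : Type) [Group G] [Finite A] (π : A → G), Nonempty (AsyncStructure π) →
      WordProblemInP π) ↔ PEqPSPACE) := by
  obtain ⟨h1, ⟨G, hG, A, hA, -, π, hS, hc⟩, h3⟩ := space_main
  refine ⟨fun G A _ _ π ⟨S⟩ => h1 G A π S, ⟨G, A, hG, hA, π, hS, hc⟩, ?_⟩
  rw [← h3]
  exact ⟨fun h G _ A _ π S => h G A π ⟨S⟩, fun h G A _ _ π ⟨S⟩ => h G A π S⟩
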